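import Mathlib

/-!
# Two-cycles of the recursion `X ↦ X (k-1) ^ 2 + X k ^ 2 + X (k+1) ^ 2` are fixed points

For MP_e9f8c5_pr, `d = 2`.
-/

set_option autoImplicit false

namespace Pool.Agent.K3h34.LT

/-- The sum is less than one at every point. -/
theorem sum_lt_one {X Y : ℤ → ℝ} (hX : ∀ k, 0 < X k) (hY : ∀ k, 0 < Y k)
    (e1 : ∀ k, X k = Y (k - 1) ^ 2 + Y k ^ 2 + Y (k + 1) ^ 2)
    (e2 : ∀ k, Y k = X (k - 1) ^ 2 + X k ^ 2 + X (k + 1) ^ 2) (k : ℤ) : X k + Y k < 1 := by
  have h1 := e1 (k + 1)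
  have h2 := e2 (k + 1)
  rw [add_sub_cancel_right] at h1 h2
  have h3 : 0 < X (k + 1 + 1) + Y (k + 1 + 1) := add_pos (hX _) (hY _)
  have hk : 0 < X k + Y k := add_pos (hX _) (hY _)
  by_contra hcon
  push Not at hcon
  nlinarith [sq_nonneg (X k - Y k), sq_nonneg (X (k + 1) - Y (k + 1)),
    sq_nonneg (X (k + 1 + 1) - Y (k + 1 + 1)), sq_nonneg (1 - (X (k + 1) + Y (k + 1))),
    mul_pos h3 h3, mul_self_le_mul_self zero_le_one hcon]

theorem two_cycle (X Y : ℤ → ℝ) (hX : ∀ k, 0 < X k) (hY : ∀ k, 0 < Y k)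
    (e1 : ∀ k, X k = Y (k - 1) ^ 2 + Y k ^ 2 + Y (k + 1) ^ 2)
    (e2 : ∀ k, Y k = X (k - 1) ^ 2 + X k ^ 2 + X (k + 1) ^ 2)
    (sX : Summable X) (sY : Summable Y) : X = Y := by
  have hlt := sum_lt_one hX hY e1 e2
  obtain ⟨h, hh⟩ : ∃ h : ℤ → ℝ, h = fun k => X k ^ 2 - Y k ^ 2 := ⟨_, rfl⟩
  have hfac : ∀ k, h k = (X k - Y k) * (X k + Y k) := fun k => by rw [hh]; ring
  have hdiff : ∀ k, X k - Y k = -(h (k - 1) + h k + h (k + 1)) := fun k => by
    simp only [hh]
    linarith [e1 k, e2 k]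
  -- summability
  have habs : ∀ k, |h k| ≤ X k + Y k := by
    intro k
    rw [hfac, abs_mul, abs_of_pos (add_pos (hX k) (hY k))]
    have h1 : |X k - Y k| ≤ 1 := by
      rw [abs_le]
      constructor <;> linarith [hlt k, hX k, hY k]
    have h2 := mul_le_mul_of_nonneg_right h1 (add_pos (hX k) (hY k)).le
    linarith
  have sh : Summable h := by
    refine Summable.of_norm_bounded (sX.add sY) fun k => ?_
    rw [Real.norm_eq_abs]
    exact habs k
  have hb1 : ∀ k, |h k| ≤ 1 := fun k => (habs k).trans (hlt k).le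
  have sprod : ∀ j : ℤ, Summable fun k => h k * h (k + j) := by
    intro j
    refine Summable.of_norm_bounded (sh.norm) fun k => ?_
    rw [norm_mul]
    have h1 := mul_le_mul_of_nonneg_left (hb1 (k + j)) (norm_nonneg (h k))
    rw [mul_one] at h1
    exact h1
  have s0 : Summable fun k => h k * h k := by simpa using sprod 0
  have s1 := sprod 1
  have sm : Summable fun k => h k * h (k - 1) := sprod (-1)
  have e3 : ∑' k, h k * h (k - 1) = ∑' k, h k * h (k + 1) := by
    rw [← (Equiv.addRight (1 : ℤ)).tsum_eq (fun k => h k * h (k - 1))]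
    refine tsum_congr fun k => ?_
    simp only [Equiv.coe_addRight, add_sub_cancel_right]
    ring
  have e4 : ∑' k, h (k + 1) * h (k + 1) = ∑' k, h k * h k :=
    (Equiv.addRight (1 : ℤ)).tsum_eq (fun k => h k * h k)
  have s4 : Summable fun k => h (k + 1) * h (k + 1) :=
    (Equiv.addRight (1 : ℤ)).summable_iff.mpr s0
  -- the two evaluations of the energy
  have key : ∀ k, h k * (X k - Y k) = -(h k * h (k - 1)) - h k * h k - h k * h (k + 1) := by
    intro k
    rw [hdiff]; ring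
  have s5 : Summable fun k => h k * (X k - Y k) := by
    simp_rw [key]
    exact (sm.neg.sub s0).sub s1
  have e5 : ∑' k, h k * (X k - Y k) = -∑' k, h k * h k - 2 * ∑' k, h k * h (k + 1) := by
    simp_rw [key]
    rw [(sm.neg.sub s0).tsum_sub s1, sm.neg.tsum_sub s0, tsum_neg, e3]
    ring
  have e6 : 0 ≤ ∑' k, (h k + h (k + 1)) ^ 2 := tsum_nonneg fun k => sq_nonneg _
  have e7 : ∑' k, (h k + h (k + 1)) ^ 2 = 2 * ∑' k, h k * h k + 2 * ∑' k, h k * h (k + 1) := by
    have : ∀ k, (h k + h (k + 1)) ^ 2 = h k * h k + h (k + 1) * h (k + 1) +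
        2 * (h k * h (k + 1)) := fun k => by ring
    simp_rw [this]
    rw [(s0.add s4).tsum_add (s1.mul_left 2), s0.tsum_add s4, e4, tsum_mul_left]
    ring
  have e8 : ∑' k, h k * (X k - Y k) ≤ ∑' k, h k * h k := by
    rw [e5]
    linarith
  have hle : ∀ k, h k * h k ≤ h k * (X k - Y k) := by
    intro k
    rw [hfac]
    have hp := add_pos (hX k) (hY k)
    nlinarith [mul_nonneg (mul_nonneg (sq_nonneg (X k - Y k)) hp.le) (sub_nonneg.mpr (hlt k).le)]
  have e9 : ∀ k, h k * h k = h k * (X k - Y k) := by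
    intro k
    by_contra hne
    have hlt' : h k * h k < h k * (X k - Y k) := lt_of_le_of_ne (hle k) hne
    have := Summable.tsum_lt_tsum hle hlt' s0 s5
    linarith
  funext k
  have h1 := e9 k
  rw [hfac] at h1
  have hp := add_pos (hX k) (hY k)
  have h2 : (X k - Y k) ^ 2 * ((X k + Y k) * (1 - (X k + Y k))) = 0 := by
    linear_combination -h1
  rcases mul_eq_zero.mp h2 with h3 | h3
  · have := pow_eq_zero_iff (two_ne_zero) |>.mp h3
    linarith
  · exfalso
    exact (mul_pos hp (sub_pos.mpr (hlt k))).ne' h3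

end Pool.Agent.K3h34.LT
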