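import Mathlib

/-!
# The reflection principle for the recursion `v (n+1) k = (v n (k-1) + v n k + v n (k+1)) ^ d`

For MP_e9f8c5_pr.
-/

set_option autoImplicit false

namespace Pool.Agent.K3h34.LT

section
variable {d : ℕ} {v : ℕ → ℤ → ℝ}
  (h0 : ∀ k, 0 ≤ v 0 k)
  (hrec : ∀ n k, v (n + 1) k = (v n (k - 1) + v n k + v n (k + 1)) ^ d)

include h0 hrec

theorem nonneg (n : ℕ) : ∀ k, 0 ≤ v n k := by
  induction n with
  | zero => exact h0
  | succ n ih =>
    intro k
    rw [hrec]
    exact pow_nonneg (add_nonneg (add_nonneg (ih _) (ih _)) (ih _)) _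

/-- Reflection at `s / 2` to the right of the support of `v 0`. -/
theorem refl_right {b : ℤ} (hb : ∀ k, b < k → v 0 k = 0) (n : ℕ) :
    ∀ s k : ℤ, 2 * b ≤ s → s ≤ 2 * k → v n k ≤ v n (s - k) := by
  induction n with
  | zero =>
    intro s k hs hk
    by_cases hkb : b < k
    · rw [hb k hkb]
      exact h0 _
    · have : s - k = k := by omega
      rw [this]
  | succ n ih =>
    intro s k hs hk
    have hn := nonneg h0 hrec n
    rw [hrec, hrec]
    refine pow_le_pow_left₀ (add_nonneg (add_nonneg (hn _) (hn _)) (hn _)) ?_ d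
    have h2 := ih s k hs hk
    have h3 := ih s (k + 1) hs (by omega)
    rw [show s - (k + 1) = s - k - 1 by ring] at h3
    rcases (show s ≤ 2 * (k - 1) ∨ s = 2 * k ∨ s = 2 * k - 1 by omega) with h | h | h
    · have h1 := ih s (k - 1) hs h
      rw [show s - (k - 1) = s - k + 1 by ring] at h1
      linarith
    · have : s - k = k := by omega
      rw [this]
    · have e1 : s - k = k - 1 := by omega
      rw [e1] at h3 ⊢
      rw [show k - 1 + 1 = k by ring]
      linarith

/-- Reflection at `s / 2` to the left of the support of `v 0`. -/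
theorem refl_left {a : ℤ} (ha : ∀ k, k < a → v 0 k = 0) (n : ℕ) :
    ∀ s k : ℤ, s ≤ 2 * a → 2 * k ≤ s → v n k ≤ v n (s - k) := by
  intro s k hs hk
  have h1 := refl_right (v := fun n k => v n (-k)) (d := d) (fun k => h0 _)
    (fun n k => by
      rw [hrec, show -(k - 1) = -k + 1 by ring, show -(k + 1) = -k - 1 by ring]
      ring) (b := -a) (fun k hk => ha _ (by omega)) n (-s) (-k) (by omega) (by omega)
  simp only [neg_neg] at h1
  rwa [show -(-s - -k) = s - k by ring] at h1

/-- To the right of the support of `v 0` the values decrease. -/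
theorem anti_right {b : ℤ} (hb : ∀ k, b < k → v 0 k = 0) (n : ℕ) {k : ℤ} (hk : b ≤ k) :
    v n (k + 1) ≤ v n k := by
  have h := refl_right h0 hrec hb n (2 * k + 1) (k + 1) (by omega) (by omega)
  rwa [show 2 * k + 1 - (k + 1) = k by ring] at h

/-- To the left of the support of `v 0` the values decrease. -/
theorem anti_left {a : ℤ} (ha : ∀ k, k < a → v 0 k = 0) (n : ℕ) {k : ℤ} (hk : k ≤ a) :
    v n (k - 1) ≤ v n k := by
  have h := refl_left h0 hrec ha n (2 * k - 1) (k - 1) (by omega) (by omega)
  rwa [show 2 * k - 1 - (k - 1) = k by ring] at h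

end

end Pool.Agent.K3h34.LT
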